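import Pool.Agent.Helper94.KC.GoalsC

/-!
# Project KC (MP_bf413e_co), packet DV: the development of a flat ball
-/

set_option autoImplicit false

open scoped Classical
open Finset

namespace Pool.Agent.Helper32.KC

open Pool.Agent.Helper94.KC

/-! ### cycles of length six -/

theorem closed_reach {V : Type} {G : SimpleGraph V} {S : Set V}
    (hS : ∀ u ∈ S, ∀ w, G.Adj u w → w ∈ S) {u w : V} (h : G.Reachable u w) (hu : u ∈ S) :
    w ∈ S := by
  obtain ⟨p⟩ := h
  induction p with
  | nil => exact hu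
  | cons hadj p ih => exact ih (hS _ hu _ hadj)

theorem seq_back {V : Type} {G : SimpleGraph V} (c : ℕ → V)
    (h2 : ∀ i e, G.Adj (c (i + 1)) e → e = c i ∨ e = c (i + 2))
    (hadj : ∀ i, G.Adj (c i) (c (i + 1))) (hne : ∀ i, c (i + 2) ≠ c i) (m : ℕ)
    (hP : ∀ i j, i ≤ m → j ≤ m → c i = c j → i = j) (i : ℕ) (hi : i ≤ m) (h : c (m + 1) = c i) :
    i = 0 ∧ 2 ≤ m := by
  have h1 : i ≠ m := by
    rintro rfl
    exact (hadj i).ne h.symm
  have h3 : i + 1 ≠ m := by
    rintro rfl
    exact hne i h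
  have h4 : i = 0 := by
    by_contra h0
    obtain ⟨l, rfl⟩ := Nat.exists_eq_succ_of_ne_zero h0
    have h5 : G.Adj (c (l + 1)) (c m) := by
      have := (hadj m).symm
      rw [h] at this
      exact this
    rcases h2 l _ h5 with h6 | h6
    · have := hP m l le_rfl (by omega) h6
      omega
    · have := hP m (l + 2) le_rfl (by omega) h6
      omega
  exact ⟨h4, by omega⟩

theorem seq_six {V : Type} {G : SimpleGraph V} (c : ℕ → V) (N : Finset V) (hN : N.card = 6)
    (hNc : ∀ i, c i ∈ N)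
    (h0 : ∀ b d e : V, G.Adj (c 0) b → G.Adj (c 0) d → b ≠ d → G.Adj (c 0) e → e = b ∨ e = d)
    (h2 : ∀ i e, G.Adj (c (i + 1)) e → e = c i ∨ e = c (i + 2))
    (hadj : ∀ i, G.Adj (c i) (c (i + 1))) (hne : ∀ i, c (i + 2) ≠ c i)
    (hconn : ∀ w ∈ N, G.Reachable (c 0) w) :
    c 6 = c 0 ∧ ∀ i j, i < 6 → j < 6 → c i = c j → i = j := by
  have hP : ∀ m, m ≤ 5 → ∀ i j, i ≤ m → j ≤ m → c i = c j → i = j := by
    intro m
    induction m with
    | zero =>
      intro _ i j hi hj _
      omega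
    | succ m ih =>
      intro hm
      have ih' := ih (by omega)
      have key : ∀ i, i ≤ m → c (m + 1) ≠ c i := by
        intro i hi h
        obtain ⟨rfl, hm2⟩ := seq_back c h2 hadj hne m ih' i hi h
        have hS : ∀ u ∈ {w | ∃ l, l ≤ m ∧ c l = w}, ∀ w, G.Adj u w →
            w ∈ {w | ∃ l, l ≤ m ∧ c l = w} := by
          rintro u ⟨l, hl, rfl⟩ w hw
          rcases Nat.eq_zero_or_pos l with h5 | h5
          · subst h5
            have h6 : G.Adj (c 0) (c m) := by
              have := (hadj m).symm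
              rw [h] at this
              exact this
            have h7 : c 1 ≠ c m := fun h8 => by
              have := ih' 1 m (by omega) le_rfl h8
              omega
            rcases h0 _ _ w (hadj 0) h6 h7 hw with h8 | h8
            · exact ⟨1, by omega, h8.symm⟩
            · exact ⟨m, le_rfl, h8.symm⟩
          · obtain ⟨l', rfl⟩ := Nat.exists_eq_succ_of_ne_zero h5.ne'
            rcases h2 l' w hw with h8 | h8
            · exact ⟨l', by omega, h8.symm⟩
            · rcases Nat.lt_or_ge (l' + 1) m with h9 | h9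
              · exact ⟨l' + 2, by omega, h8.symm⟩
              · have h10 : l' + 1 = m := by
                  have : l' + 1 ≤ m := hl
                  omega
                refine ⟨0, by omega, ?_⟩
                rw [h8, show l' + 2 = m + 1 by omega, h]
        have hsub : N ⊆ (range (m + 1)).image c := by
          intro w hw
          obtain ⟨l, hl, hlw⟩ := closed_reach hS (hconn w hw) ⟨0, by omega, rfl⟩
          exact mem_image.2 ⟨l, mem_range.2 (by omega), hlw⟩
        have h11 := card_le_card hsub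
        have h12 := card_image_le (s := range (m + 1)) (f := c)
        rw [card_range] at h12
        omega
      intro i j hi hj hij
      rcases Nat.lt_or_ge i (m + 1) with h5 | h5
      · rcases Nat.lt_or_ge j (m + 1) with h6 | h6
        · exact ih' i j (by omega) (by omega) hij
        · have : j = m + 1 := by omega
          subst this
          exact absurd hij.symm (key i (by omega))
      · have : i = m + 1 := by omega
        subst this
        rcases Nat.lt_or_ge j (m + 1) with h6 | h6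
        · exact absurd hij (key j (by omega))
        · omega
  have hP5 := hP 5 le_rfl
  refine ⟨?_, fun i j hi hj => hP5 i j (by omega) (by omega)⟩
  have h3 : (range 6).image c = N := by
    refine eq_of_subset_of_card_le ?_ ?_
    · intro w hw
      obtain ⟨l, _, rfl⟩ := mem_image.1 hw
      exact hNc l
    · rw [hN, card_image_of_injOn, card_range]
      intro i hi j hj hij
      have hi' := mem_range.1 (mem_coe.1 hi)
      have hj' := mem_range.1 (mem_coe.1 hj)
      exact hP5 i j (by omega) (by omega) hij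
  have h4 : c 6 ∈ (range 6).image c := by
    rw [h3]
    exact hNc 6
  obtain ⟨i, hi, hi6⟩ := mem_image.1 h4
  have hi' := mem_range.1 hi
  obtain ⟨rfl, _⟩ := seq_back c h2 hadj hne 5 hP5 i (by omega) hi6.symm
  exact hi6.symm

/-! ### frames -/

/-- `F` is a frame at `F.1` -/
structure Ok {V : Type} (T : Finset (Finset V)) (F : V × (ZMod 6 → V)) : Prop where
  adj : ∀ j, (lk T F.1).Adj (F.2 j) (F.2 (j + 1))
  inj : Function.Injective F.2

/-- `F'` is the transport of `F` in direction `j` -/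
structure Tp {V : Type} (j : ZMod 6) (F F' : V × (ZMod 6 → V)) : Prop where
  base : F'.1 = F.2 j
  two : F'.2 (j + 2) = F.2 (j + 1)
  three : F'.2 (j + 3) = F.1
  four : F'.2 (j + 4) = F.2 (j - 1)

theorem lk_rot {V : Type} {T : Finset (Finset V)} {v u w : V} (h : (lk T v).Adj u w) :
    (lk T u).Adj v w := by
  obtain ⟨h1, h2, h3, t, ht, h4, h5, h6⟩ := h
  exact ⟨h3.symm, h2.symm, h1.symm, t, ht, h5, h4, h6⟩

theorem Tp.symm {V : Type} {j : ZMod 6} {F F' : V × (ZMod 6 → V)} (h : Tp j F F') :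
    Tp (j + 3) F' F := by
  have e1 : ∀ j : ZMod 6, j + 3 + 2 = j - 1 := by decide
  have e2 : ∀ j : ZMod 6, j + 3 + 3 = j := by decide
  have e3 : ∀ j : ZMod 6, j + 3 + 4 = j + 1 := by decide
  refine ⟨h.three.symm, ?_, ?_, ?_⟩
  · rw [e1, show j + 3 + 1 = j + 4 by ring, h.four]
  · rw [e2, h.base]
  · rw [e3, show j + 3 - 1 = j + 2 by ring, h.two]

section surf

variable {V : Type} [Fintype V] {T : Finset (Finset V)}

theorem two_nb (hL : ∀ v u, (sk T).Adj v u → dR (lk T v) univ u = 2) {v a b c e : V}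
    (hva : (sk T).Adj v a) (hb : (lk T v).Adj a b) (hc : (lk T v).Adj a c) (hbc : b ≠ c)
    (he : (lk T v).Adj a e) : e = b ∨ e = c := by
  have h1 := hL v a hva
  unfold dR at h1
  have h2 : ({b, c} : Finset V) = univ.filter (fun y => (lk T v).Adj a y) := by
    refine eq_of_subset_of_card_le ?_ ?_
    · intro w hw
      rcases mem_insert.1 hw with h | h
      · subst h
        exact mem_filter.2 ⟨mem_univ _, hb⟩
      · rw [mem_singleton.1 h]
        exact mem_filter.2 ⟨mem_univ _, hc⟩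
    · rw [card_pair hbc]
      exact h1.le
  have h3 : e ∈ ({b, c} : Finset V) := by
    rw [h2]
    exact mem_filter.2 ⟨mem_univ _, he⟩
  rcases mem_insert.1 h3 with h | h
  · exact Or.inl h
  · exact Or.inr (mem_singleton.1 h)

theorem exists_cycle (hT : Surf T) (hL : ∀ v u, (sk T).Adj v u → dR (lk T v) univ u = 2)
    (hL2 : ∀ v u w, (lk T v).Adj u w → (sk T).Adj v u ∧ (sk T).Adj v w ∧ (sk T).Adj u w)
    {v a b : V} (hd : dg T v = 6) (hab : (lk T v).Adj a b) :
    ∃ s : ZMod 6 → V, s 0 = a ∧ s 1 = b ∧ Ok T (v, s) := by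
  have hex : ∀ p : {p : V × V // (lk T v).Adj p.1 p.2}, ∃ w, (lk T v).Adj p.1.2 w ∧
      w ≠ p.1.1 := by
    intro p
    have h1 := hL v p.1.2 (hL2 v _ _ p.2).2.1
    unfold dR at h1
    obtain ⟨w, hw, hw'⟩ := exists_mem_ne (s := univ.filter (fun y => (lk T v).Adj p.1.2 y))
      (by omega) p.1.1
    exact ⟨w, (mem_filter.1 hw).2, hw'⟩
  choose g hg using hex
  let st : {p : V × V // (lk T v).Adj p.1 p.2} → {p : V × V // (lk T v).Adj p.1 p.2} :=
    fun p => ⟨(p.1.2, g p), (hg p).1⟩
  let p0 : {p : V × V // (lk T v).Adj p.1 p.2} := ⟨(a, b), hab⟩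
  let c : ℕ → V := fun i => (st^[i] p0).1.1
  have hc1 : ∀ i, c (i + 1) = (st^[i] p0).1.2 := by
    intro i
    change (st^[i + 1] p0).1.1 = _
    rw [Function.iterate_succ_apply']
  have hadj : ∀ i, (lk T v).Adj (c i) (c (i + 1)) := by
    intro i
    rw [hc1]
    exact (st^[i] p0).2
  have hne : ∀ i, c (i + 2) ≠ c i := by
    intro i
    rw [hc1 (i + 1), Function.iterate_succ_apply']
    exact (hg (st^[i] p0)).2
  have hsk : ∀ i, (sk T).Adj v (c i) := fun i => (hL2 v _ _ (hadj i)).1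
  have h2 : ∀ i e, (lk T v).Adj (c (i + 1)) e → e = c i ∨ e = c (i + 2) := by
    intro i e he
    exact two_nb hL (hsk (i + 1)) (hadj i).symm (hadj (i + 1)) (hne i).symm he
  obtain ⟨h6, hinj⟩ := seq_six c (univ.filter (fun y => (sk T).Adj v y)) hd
    (fun i => mem_filter.2 ⟨mem_univ _, hsk i⟩)
    (fun b d e hb hd' hbd he => two_nb hL (hsk 0) hb hd' hbd he) h2 hadj hne
    (fun w hw => hT.link v _ w (hsk 0) (mem_filter.1 hw).2)
  refine ⟨fun j => c j.val, rfl, ?_, ?_, ?_⟩
  · exact hc1 0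
  · intro j
    have hj : ∀ j : ZMod 6, (j + 1).val = if j.val = 5 then 0 else j.val + 1 := by decide
    change (lk T v).Adj (c j.val) (c (j + 1).val)
    rw [hj]
    split_ifs with h
    · rw [h, ← h6]
      exact hadj 5
    · exact hadj _
  · intro i j hij
    exact ZMod.val_injective 6 (hinj _ _ (ZMod.val_lt i) (ZMod.val_lt j) hij)

omit [Fintype V] in
theorem Ok.sk (hL2 : ∀ v u w, (lk T v).Adj u w → (sk T).Adj v u ∧ (sk T).Adj v w ∧ (sk T).Adj u w)
    {F : V × (ZMod 6 → V)} (h : Ok T F) (j : ZMod 6) :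
    (Pool.Agent.Helper94.KC.sk T).Adj F.1 (F.2 j) := (hL2 _ _ _ (h.adj j)).1

theorem Ok.nb (hL : ∀ v u, (Pool.Agent.Helper94.KC.sk T).Adj v u → dR (lk T v) univ u = 2)
    (hL2 : ∀ v u w, (lk T v).Adj u w → (Pool.Agent.Helper94.KC.sk T).Adj v u ∧
      (Pool.Agent.Helper94.KC.sk T).Adj v w ∧ (Pool.Agent.Helper94.KC.sk T).Adj u w)
    {F : V × (ZMod 6 → V)} (h : Ok T F) (j : ZMod 6) (w : V) (hw : (lk T F.1).Adj (F.2 j) w) :
    w = F.2 (j - 1) ∨ w = F.2 (j + 1) := by
  refine two_nb hL (h.sk hL2 j) ?_ (h.adj j) ?_ hw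
  · have := (h.adj (j - 1)).symm
    rwa [sub_add_cancel] at this
  · intro h1
    have h2 := h.inj h1
    have h3 : ∀ j : ZMod 6, j - 1 ≠ j + 1 := by decide
    exact h3 j h2

theorem Ok.all (hL2 : ∀ v u w, (lk T v).Adj u w → (Pool.Agent.Helper94.KC.sk T).Adj v u ∧
      (Pool.Agent.Helper94.KC.sk T).Adj v w ∧ (Pool.Agent.Helper94.KC.sk T).Adj u w)
    {F : V × (ZMod 6 → V)} (h : Ok T F) (hd : dg T F.1 = 6) (w : V) :
    (Pool.Agent.Helper94.KC.sk T).Adj F.1 w ↔ ∃ j, F.2 j = w := by
  constructor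
  · intro hw
    have h1 : (univ : Finset (ZMod 6)).image F.2 =
        univ.filter (fun y => (Pool.Agent.Helper94.KC.sk T).Adj F.1 y) := by
      refine eq_of_subset_of_card_le ?_ ?_
      · intro u hu
        obtain ⟨j, _, rfl⟩ := mem_image.1 hu
        exact mem_filter.2 ⟨mem_univ _, h.sk hL2 j⟩
      · rw [card_image_of_injective _ h.inj, card_univ, ZMod.card]
        exact hd.le
    have h2 : w ∈ (univ : Finset (ZMod 6)).image F.2 := by
      rw [h1]
      exact mem_filter.2 ⟨mem_univ _, hw⟩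
    obtain ⟨j, _, hj⟩ := mem_image.1 h2
    exact ⟨j, hj⟩
  · rintro ⟨j, rfl⟩
    exact h.sk hL2 j

theorem exists_tp (hT : Surf T)
    (hL : ∀ v u, (Pool.Agent.Helper94.KC.sk T).Adj v u → dR (lk T v) univ u = 2)
    (hL2 : ∀ v u w, (lk T v).Adj u w → (Pool.Agent.Helper94.KC.sk T).Adj v u ∧
      (Pool.Agent.Helper94.KC.sk T).Adj v w ∧ (Pool.Agent.Helper94.KC.sk T).Adj u w)
    {F : V × (ZMod 6 → V)} (h : Ok T F) (j : ZMod 6) (hd : dg T (F.2 j) = 6) :
    ∃ F', Ok T F' ∧ Tp j F F' := by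
  have h1 : (lk T (F.2 j)).Adj (F.2 (j + 1)) F.1 := (lk_rot (h.adj j)).symm
  obtain ⟨s, hs0, hs1, hs⟩ := exists_cycle hT hL hL2 hd h1
  have hok : Ok T (F.2 j, fun i => s (i - (j + 2))) := by
    refine ⟨fun i => ?_, fun i i' hii => ?_⟩
    · have := hs.adj (i - (j + 2))
      change (lk T (F.2 j)).Adj (s (i - (j + 2))) (s (i + 1 - (j + 2)))
      rw [show i + 1 - (j + 2) = i - (j + 2) + 1 by ring]
      exact this
    · exact sub_left_injective (hs.inj hii)
  refine ⟨_, hok, rfl, ?_, ?_, ?_⟩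
  · change s (j + 2 - (j + 2)) = _
    rw [sub_self, hs0]
  · change s (j + 3 - (j + 2)) = _
    rw [show j + 3 - (j + 2) = 1 by ring, hs1]
  · change s (j + 4 - (j + 2)) = _
    rw [show j + 4 - (j + 2) = 2 by ring]
    have h2 := hs.adj 1
    rw [show (1 : ZMod 6) + 1 = 2 by rfl] at h2
    change (lk T (F.2 j)).Adj (s 1) (s 2) at h2
    rw [hs1] at h2
    rcases h.nb hL hL2 j _ (lk_rot h2) with h3 | h3
    · exact h3
    · exfalso
      rw [← hs0] at h3
      have h4 := hs.inj h3
      exact absurd h4 (by decide)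

theorem tp_comp (hL : ∀ v u, (Pool.Agent.Helper94.KC.sk T).Adj v u → dR (lk T v) univ u = 2)
    (hL2 : ∀ v u w, (lk T v).Adj u w → (Pool.Agent.Helper94.KC.sk T).Adj v u ∧
      (Pool.Agent.Helper94.KC.sk T).Adj v w ∧ (Pool.Agent.Helper94.KC.sk T).Adj u w)
    {F F' F'' : V × (ZMod 6 → V)} (h : Ok T F) (h'' : Ok T F'') {j : ZMod 6}
    (t1 : Tp j F F') (t2 : Tp (j + 2) F' F'') : Tp (j + 1) F F'' := by
  have e1 : F''.1 = F.2 (j + 1) := by rw [t2.base, t1.two]
  have e2 : F''.2 (j + 4) = F.1 := by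
    have := t2.two
    rw [show j + 2 + 2 = j + 4 by ring, show j + 2 + 1 = j + 3 by ring, t1.three] at this
    exact this
  have e3 : F''.2 (j + 5) = F.2 j := by
    have := t2.three
    rw [show j + 2 + 3 = j + 5 by ring, t1.base] at this
    exact this
  refine ⟨e1, ?_, ?_, ?_⟩
  · rw [show j + 1 + 2 = j + 3 by ring, show j + 1 + 1 = j + 2 by ring]
    have h1 := h''.adj (j + 3)
    rw [show j + 3 + 1 = j + 4 by ring, e2, e1] at h1
    rcases h.nb hL hL2 (j + 1) _ (lk_rot h1.symm) with h3 | h3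
    · exfalso
      rw [add_sub_cancel_right, ← e3] at h3
      have h4 := h''.inj h3
      have h5 : ∀ j : ZMod 6, j + 3 ≠ j + 5 := by decide
      exact h5 j h4
    · rw [h3, show j + 1 + 1 = j + 2 by ring]
  · rw [show j + 1 + 3 = j + 4 by ring, e2]
  · rw [show j + 1 + 4 = j + 5 by ring, e3, add_sub_cancel_right]

/-- the transport, as a total function -/
noncomputable def tr (T : Finset (Finset V)) (j : ZMod 6) (F : V × (ZMod 6 → V)) :
    V × (ZMod 6 → V) :=
  if h : ∃ F', Ok T F' ∧ Tp j F F' then h.choose else F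

/-- `j` transports in direction `k + 1` after `i` transports in direction `k` -/
noncomputable def G (T : Finset (Finset V)) (F : V × (ZMod 6 → V)) (k : ZMod 6) (i j : ℕ) :
    V × (ZMod 6 → V) := (tr T (k + 1))^[j] ((tr T k)^[i] F)

end surf

/-! ### the lattice -/

/-- the six directions -/
def d : ZMod 6 → ℤ × ℤ := ![(1, 0), (0, 1), (-1, 1), (-1, 0), (0, -1), (1, -1)]

/-- `i d_k + j d_(k+1)` -/
def pt (k : ZMod 6) (i j : ℕ) : ℤ × ℤ :=
  ((i : ℤ) * (d k).1 + (j : ℤ) * (d (k + 1)).1, (i : ℤ) * (d k).2 + (j : ℤ) * (d (k + 1)).2)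

theorem d_two (k : ZMod 6) : (d (k + 2)).1 = (d (k + 1)).1 - (d k).1 ∧
    (d (k + 2)).2 = (d (k + 1)).2 - (d k).2 := by
  revert k
  decide

theorem d_three (k : ZMod 6) : (d (k + 3)).1 = - (d k).1 ∧ (d (k + 3)).2 = - (d k).2 := by
  revert k
  decide

theorem d_five (k : ZMod 6) : (d (k + 5)).1 = (d k).1 - (d (k + 1)).1 ∧
    (d (k + 5)).2 = (d k).2 - (d (k + 1)).2 := by
  revert k
  decide

theorem pt0 (i j : ℕ) : pt 0 i j = ((i : ℤ), (j : ℤ)) := by
  simp [pt, show d 0 = (1, 0) from rfl, show d 1 = (0, 1) from rfl]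

theorem pt1 (i j : ℕ) : pt 1 i j = (-(j : ℤ), (i : ℤ) + j) := by
  simp [pt, show d 1 = (0, 1) from rfl, show d (1 + 1) = (-1, 1) from rfl]

theorem pt2 (i j : ℕ) : pt 2 i j = (-(i : ℤ) + -(j : ℤ), (i : ℤ)) := by
  simp [pt, show d 2 = (-1, 1) from rfl, show d (2 + 1) = (-1, 0) from rfl]

theorem pt3 (i j : ℕ) : pt 3 i j = (-(i : ℤ), -(j : ℤ)) := by
  simp [pt, show d 3 = (-1, 0) from rfl, show d (3 + 1) = (0, -1) from rfl]

theorem pt4 (i j : ℕ) : pt 4 i j = ((j : ℤ), -(i : ℤ) + -(j : ℤ)) := by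
  simp [pt, show d 4 = (0, -1) from rfl, show d (4 + 1) = (1, -1) from rfl]

theorem pt5 (i j : ℕ) : pt 5 i j = ((i : ℤ) + (j : ℤ), -(i : ℤ)) := by
  simp [pt, show d 5 = (1, -1) from rfl, show d (5 + 1) = (1, 0) from rfl]

theorem pt_exists (p : ℤ × ℤ) : ∃ k i j, pt k i j = p ∧ i + j = hn p := by
  obtain ⟨a, b⟩ := p
  unfold hn
  rcases le_total 0 a with ha | ha
  · rcases le_total 0 b with hb | hb
    · refine ⟨0, a.toNat, b.toNat, ?_, ?_⟩
      · rw [pt0, Prod.mk.injEq]
        omega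
      · dsimp only
        omega
    · rcases le_total 0 (a + b) with hc | hc
      · refine ⟨5, (-b).toNat, (a + b).toNat, ?_, ?_⟩
        · rw [pt5, Prod.mk.injEq]
          omega
        · dsimp only
          omega
      · refine ⟨4, (-(a + b)).toNat, a.toNat, ?_, ?_⟩
        · rw [pt4, Prod.mk.injEq]
          omega
        · dsimp only
          omega
  · rcases le_total 0 b with hb | hb
    · rcases le_total 0 (a + b) with hc | hc
      · refine ⟨1, (a + b).toNat, (-a).toNat, ?_, ?_⟩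
        · rw [pt1, Prod.mk.injEq]
          omega
        · dsimp only
          omega
      · refine ⟨2, b.toNat, (-(a + b)).toNat, ?_, ?_⟩
        · rw [pt2, Prod.mk.injEq]
          omega
        · dsimp only
          omega
    · refine ⟨3, (-a).toNat, (-b).toNat, ?_, ?_⟩
      · rw [pt3, Prod.mk.injEq]
        omega
      · dsimp only
        omega

theorem cases6 (k : ZMod 6) : k = 0 ∨ k = 1 ∨ k = 2 ∨ k = 3 ∨ k = 4 ∨ k = 5 := by
  revert k
  decide

theorem pt_eq {V : Type} [Fintype V] (T : Finset (Finset V)) (F : V × (ZMod 6 → V))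
    {k k' : ZMod 6} {i j i' j' : ℕ} (h : pt k i j = pt k' i' j') :
    G T F k i j = G T F k' i' j' := by
  have h1 : (k = k' ∧ i = i' ∧ j = j') ∨ (k' = k + 1 ∧ i = 0 ∧ j' = 0 ∧ j = i') ∨
      (k = k' + 1 ∧ i' = 0 ∧ j = 0 ∧ j' = i) ∨ (i = 0 ∧ j = 0 ∧ i' = 0 ∧ j' = 0) := by
    rcases cases6 k with hk | hk | hk | hk | hk | hk <;>
    rcases cases6 k' with hk' | hk' | hk' | hk' | hk' | hk' <;>
    subst hk <;> subst hk' <;>
    simp only [pt0, pt1, pt2, pt3, pt4, pt5, Prod.mk.injEq] at h <;>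
    first
    | exact Or.inl ⟨rfl, by omega, by omega⟩
    | exact Or.inr (Or.inl ⟨rfl, by omega, by omega, by omega⟩)
    | exact Or.inr (Or.inr (Or.inl ⟨rfl, by omega, by omega, by omega⟩))
    | exact Or.inr (Or.inr (Or.inr ⟨by omega, by omega, by omega, by omega⟩))
  rcases h1 with ⟨rfl, rfl, rfl⟩ | ⟨rfl, rfl, rfl, rfl⟩ | ⟨rfl, rfl, rfl, rfl⟩ | ⟨rfl, rfl, rfl, rfl⟩
  · rfl
  · rfl
  · rfl
  · rfl

theorem hn_one (p : ℤ × ℤ) (h : hn p = 1) : ∃ m, p = d m := by
  obtain ⟨a, b⟩ := p
  unfold hn at h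
  dsimp only at h
  have h1 : (a = 1 ∧ b = 0) ∨ (a = 0 ∧ b = 1) ∨ (a = -1 ∧ b = 1) ∨ (a = -1 ∧ b = 0) ∨
      (a = 0 ∧ b = -1) ∨ (a = 1 ∧ b = -1) := by omega
  rcases h1 with ⟨rfl, rfl⟩ | ⟨rfl, rfl⟩ | ⟨rfl, rfl⟩ | ⟨rfl, rfl⟩ | ⟨rfl, rfl⟩ | ⟨rfl, rfl⟩
  · exact ⟨0, rfl⟩
  · exact ⟨1, rfl⟩
  · exact ⟨2, rfl⟩
  · exact ⟨3, rfl⟩
  · exact ⟨4, rfl⟩
  · exact ⟨5, rfl⟩

theorem hn_d (m : ZMod 6) : hn (d m) = 1 := by
  revert m
  decide

theorem hn_dd (m m' : ZMod 6) (h : hn (d m' - d m) = 1) : m' = m + 1 ∨ m = m' + 1 := by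
  revert m m'
  decide

/-! ### the development -/

section dev

variable {V : Type} [Fintype V] {T : Finset (Finset V)}

theorem tr_ok (hT : Surf T) (hL : ∀ v u, (sk T).Adj v u → dR (lk T v) univ u = 2)
    (hL2 : ∀ v u w, (lk T v).Adj u w → (sk T).Adj v u ∧ (sk T).Adj v w ∧ (sk T).Adj u w)
    {x : V} {n : ℕ} (hdeg : ∀ y, (sk T).dist x y ≤ n + 2 → dg T y = 6)
    {F : V × (ZMod 6 → V)} (h : Ok T F) (j : ZMod 6) {c : ℕ} (hc : (sk T).dist x F.1 ≤ c)
    (hcn : c + 1 ≤ n + 2) :
    Ok T (tr T j F) ∧ Tp j F (tr T j F) ∧ (sk T).dist x (tr T j F).1 ≤ c + 1 := by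
  have h1 : (sk T).dist x (F.2 j) ≤ c + 1 := by
    have h2 := hT.conn.dist_triangle (u := x) (v := F.1) (w := F.2 j)
    have h3 := SimpleGraph.dist_eq_one_iff_adj.2 (h.sk hL2 j)
    omega
  have h2 : ∃ F', Ok T F' ∧ Tp j F F' := exists_tp hT hL hL2 h j (hdeg _ (by omega))
  have h3 : tr T j F = h2.choose := dif_pos h2
  have h4 := h2.choose_spec
  rw [h3]
  refine ⟨h4.1, h4.2, ?_⟩
  rw [h4.2.base]
  exact h1

theorem G_zero (F : V × (ZMod 6 → V)) (k : ZMod 6) : G T F k 0 0 = F := rfl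

theorem G_succ_i (F : V × (ZMod 6 → V)) (k : ZMod 6) (i : ℕ) :
    G T F k (i + 1) 0 = tr T k (G T F k i 0) := by
  change (tr T k)^[i + 1] F = tr T k ((tr T k)^[i] F)
  rw [Function.iterate_succ_apply']

theorem G_succ_j (F : V × (ZMod 6 → V)) (k : ZMod 6) (i j : ℕ) :
    G T F k i (j + 1) = tr T (k + 1) (G T F k i j) := by
  unfold G
  rw [Function.iterate_succ_apply']

theorem G_ok (hT : Surf T) (hL : ∀ v u, (sk T).Adj v u → dR (lk T v) univ u = 2)
    (hL2 : ∀ v u w, (lk T v).Adj u w → (sk T).Adj v u ∧ (sk T).Adj v w ∧ (sk T).Adj u w)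
    {x : V} {n : ℕ} (hdeg : ∀ y, (sk T).dist x y ≤ n + 2 → dg T y = 6)
    {F : V × (ZMod 6 → V)} (h : Ok T F) (hF : F.1 = x) (k : ZMod 6) :
    ∀ i j, i + j ≤ n + 2 → Ok T (G T F k i j) ∧ (sk T).dist x (G T F k i j).1 ≤ i + j := by
  intro i j
  induction j with
  | zero =>
    induction i with
    | zero =>
      intro _
      rw [G_zero]
      refine ⟨h, ?_⟩
      rw [hF, SimpleGraph.dist_self]
    | succ i ih =>
      intro hi
      obtain ⟨h1, h2⟩ := ih (by omega)
      obtain ⟨h3, _, h4⟩ := tr_ok hT hL hL2 hdeg h1 k h2 (by omega)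
      rw [G_succ_i]
      exact ⟨h3, by omega⟩
  | succ j ih =>
    intro hi
    obtain ⟨h1, h2⟩ := ih (by omega)
    obtain ⟨h3, _, h4⟩ := tr_ok hT hL hL2 hdeg h1 (k + 1) h2 (by omega)
    rw [G_succ_j]
    exact ⟨h3, by omega⟩

theorem G_j (hT : Surf T) (hL : ∀ v u, (sk T).Adj v u → dR (lk T v) univ u = 2)
    (hL2 : ∀ v u w, (lk T v).Adj u w → (sk T).Adj v u ∧ (sk T).Adj v w ∧ (sk T).Adj u w)
    {x : V} {n : ℕ} (hdeg : ∀ y, (sk T).dist x y ≤ n + 2 → dg T y = 6)
    {F : V × (ZMod 6 → V)} (h : Ok T F) (hF : F.1 = x) (k : ZMod 6) (i j : ℕ)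
    (hij : i + j + 1 ≤ n + 2) : Tp (k + 1) (G T F k i j) (G T F k i (j + 1)) := by
  obtain ⟨h1, h2⟩ := G_ok hT hL hL2 hdeg h hF k i j (by omega)
  rw [G_succ_j]
  exact (tr_ok hT hL hL2 hdeg h1 (k + 1) h2 (by omega)).2.1

theorem G_i (hT : Surf T) (hL : ∀ v u, (sk T).Adj v u → dR (lk T v) univ u = 2)
    (hL2 : ∀ v u w, (lk T v).Adj u w → (sk T).Adj v u ∧ (sk T).Adj v w ∧ (sk T).Adj u w)
    {x : V} {n : ℕ} (hdeg : ∀ y, (sk T).dist x y ≤ n + 2 → dg T y = 6)
    {F : V × (ZMod 6 → V)} (h : Ok T F) (hF : F.1 = x) (k : ZMod 6) (i : ℕ) : ∀ j : ℕ,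
    i + j + 1 ≤ n + 2 → Tp k (G T F k i j) (G T F k (i + 1) j) ∧
      Tp (k + 2) (G T F k (i + 1) j) (G T F k i (j + 1)) := by
  have e1 : ∀ k : ZMod 6, k + 1 + 3 + 2 = k := by decide
  have e2 : ∀ k : ZMod 6, k + 1 + 3 + 1 + 3 = k + 2 := by decide
  have e3 : ∀ k : ZMod 6, k + 1 + 3 + 1 + 2 = k + 1 := by decide
  have e4 : ∀ k : ZMod 6, k + 1 + 3 + 1 + 1 = k := by decide
  have key : ∀ j, i + j + 1 ≤ n + 2 → Tp k (G T F k i j) (G T F k (i + 1) j) →
      Tp (k + 1 + 3 + 1) (G T F k i (j + 1)) (G T F k (i + 1) j) := by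
    intro j hj ht
    have o1 := (G_ok hT hL hL2 hdeg h hF k i (j + 1) (by omega)).1
    have o2 := (G_ok hT hL hL2 hdeg h hF k (i + 1) j (by omega)).1
    have t1 := (G_j hT hL hL2 hdeg h hF k i j (by omega)).symm
    have t2 : Tp (k + 1 + 3 + 2) (G T F k i j) (G T F k (i + 1) j) := by
      rw [e1]
      exact ht
    exact tp_comp hL hL2 o1 o2 t1 t2
  intro j
  induction j with
  | zero =>
    intro hj
    have h1 : Tp k (G T F k i 0) (G T F k (i + 1) 0) := by
      obtain ⟨h1, h2⟩ := G_ok hT hL hL2 hdeg h hF k i 0 (by omega)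
      rw [G_succ_i]
      exact (tr_ok hT hL hL2 hdeg h1 k h2 (by omega)).2.1
    refine ⟨h1, ?_⟩
    have h2 := (key 0 hj h1).symm
    rwa [e2] at h2
  | succ j ih =>
    intro hj
    obtain ⟨h1, h2⟩ := ih (by omega)
    have h3 := key j (by omega) h1
    have h4 : Tp k (G T F k i (j + 1)) (G T F k (i + 1) (j + 1)) := by
      have o1 := (G_ok hT hL hL2 hdeg h hF k i (j + 1) (by omega)).1
      have o2 := (G_ok hT hL hL2 hdeg h hF k (i + 1) (j + 1) (by omega)).1
      have t2 : Tp (k + 1 + 3 + 1 + 2) (G T F k (i + 1) j) (G T F k (i + 1) (j + 1)) := by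
        rw [e3]
        exact G_j hT hL hL2 hdeg h hF k (i + 1) j (by omega)
      have h5 := tp_comp hL hL2 o1 o2 h3 t2
      rwa [e4] at h5
    refine ⟨h4, ?_⟩
    have h2 := (key (j + 1) hj h4).symm
    rwa [e2] at h2

end dev

theorem dv (hL1 : StmtL1) : StmtDV := by
  intro V _ T x n hT hdeg
  obtain ⟨hL, hL2, _⟩ := hL1 V T hT
  -- the frame at `x`
  have hx : dg T x = 6 := hdeg x (by rw [SimpleGraph.dist_self]; omega)
  obtain ⟨F₀, hF₀, hF₀x⟩ : ∃ F : V × (ZMod 6 → V), Ok T F ∧ F.1 = x := by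
    have h1 : (univ.filter (fun y => (sk T).Adj x y)).card = 6 := hx
    obtain ⟨a, ha⟩ := card_pos.1 (show 0 < (univ.filter (fun y => (sk T).Adj x y)).card by omega)
    have ha' := (mem_filter.1 ha).2
    have h2 : (univ.filter (fun y => (lk T x).Adj a y)).card = 2 := hL x a ha'
    obtain ⟨b, hb⟩ := card_pos.1 (show 0 < (univ.filter (fun y => (lk T x).Adj a y)).card by omega)
    obtain ⟨s, _, _, hs⟩ := exists_cycle hT hL hL2 hx (mem_filter.1 hb).2
    exact ⟨_, hs, rfl⟩
  choose K I J hK using pt_exists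
  let F : ℤ × ℤ → V × (ZMod 6 → V) := fun p => G T F₀ (K p) (I p) (J p)
  have hF : ∀ k i j, F (pt k i j) = G T F₀ k i j := fun k i j => pt_eq T F₀ (hK _).1
  have hok : ∀ p, hn p ≤ n → Ok T (F p) ∧ dg T (F p).1 = 6 := by
    intro p hp
    have h1 := (hK p).2
    obtain ⟨h2, h3⟩ := G_ok hT hL hL2 hdeg hF₀ hF₀x (K p) (I p) (J p) (by omega)
    have h4 : (sk T).dist x (F p).1 ≤ I p + J p := h3
    exact ⟨h2, hdeg (F p).1 (by omega)⟩
  have hedge : ∀ p, hn p ≤ n → ∀ m, Tp m (F p) (F (p + d m)) := by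
    intro p hp m
    obtain ⟨k, i, j, rfl, hij⟩ := pt_exists p
    have hm : m = k + (m - k) := by ring
    have z : ∀ m : ZMod 6, Tp m (F (pt k 0 0)) (F (pt k 0 0 + d m)) := by
      intro m
      have e1 : pt k 0 0 = pt m 0 0 := by simp [pt]
      have e2 : pt m 0 0 + d m = pt m 1 0 := by
        ext <;> simp [pt]
      rw [e1, e2, hF, hF]
      exact (G_i hT hL hL2 hdeg hF₀ hF₀x m 0 0 (by omega)).1
    obtain ⟨d21, d22⟩ := d_two k
    obtain ⟨d31, d32⟩ := d_three k
    obtain ⟨d41, d42⟩ := d_three (k + 1)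
    obtain ⟨d51, d52⟩ := d_five k
    rw [show k + 1 + 3 = k + 4 by ring] at d41 d42
    have e5 : ∀ k : ZMod 6, k + 5 + 1 = k := by decide
    have hi1 : ∀ i : ℕ, pt k i 0 = pt (k + 5) 0 i := by
      intro i
      ext <;> simp [pt, e5]
    have hj1 : ∀ j : ℕ, pt k 0 j = pt (k + 1) j 0 := by
      intro j
      ext <;> simp [pt]
    rcases cases6 (m - k) with h | h | h | h | h | h
    · rw [h, add_zero] at hm
      subst hm
      have e : pt m i j + d m = pt m (i + 1) j := by
        ext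
        · simp only [pt, Prod.fst_add]
          push_cast
          ring
        · simp only [pt, Prod.snd_add]
          push_cast
          ring
      rw [e, hF, hF]
      exact (G_i hT hL hL2 hdeg hF₀ hF₀x m i j (by omega)).1
    · rw [h] at hm
      subst hm
      have e : pt k i j + d (k + 1) = pt k i (j + 1) := by
        ext
        · simp only [pt, Prod.fst_add]
          push_cast
          ring
        · simp only [pt, Prod.snd_add]
          push_cast
          ring
      rw [e, hF, hF]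
      exact G_j hT hL hL2 hdeg hF₀ hF₀x k i j (by omega)
    · rw [h] at hm
      subst hm
      rcases i with _ | i
      · have e : pt k 0 j + d (k + 2) = pt (k + 1) j 1 := by
          ext
          · simp only [pt, Prod.fst_add, show k + 1 + 1 = k + 2 by ring]
            push_cast
            ring
          · simp only [pt, Prod.snd_add, show k + 1 + 1 = k + 2 by ring]
            push_cast
            ring
        rw [e, hj1, hF, hF, show k + 2 = k + 1 + 1 by ring]
        exact G_j hT hL hL2 hdeg hF₀ hF₀x (k + 1) j 0 (by omega)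
      · have e : pt k (i + 1) j + d (k + 2) = pt k i (j + 1) := by
          ext
          · simp only [pt, Prod.fst_add]
            push_cast
            linear_combination d21
          · simp only [pt, Prod.snd_add]
            push_cast
            linear_combination d22
        rw [e, hF, hF]
        exact (G_i hT hL hL2 hdeg hF₀ hF₀x k i j (by omega)).2
    · rw [h] at hm
      subst hm
      rcases i with _ | i
      · rcases j with _ | j
        · exact z _
        · have e : pt k 0 (j + 1) + d (k + 3) = pt (k + 1) j 1 := by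
            ext
            · simp only [pt, Prod.fst_add, show k + 1 + 1 = k + 2 by ring]
              push_cast
              linear_combination d31 - d21
            · simp only [pt, Prod.snd_add, show k + 1 + 1 = k + 2 by ring]
              push_cast
              linear_combination d32 - d22
          rw [e, hj1, hF, hF, show k + 3 = k + 1 + 2 by ring]
          exact (G_i hT hL hL2 hdeg hF₀ hF₀x (k + 1) j 0 (by omega)).2
      · have e : pt k (i + 1) j + d (k + 3) = pt k i j := by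
          ext
          · simp only [pt, Prod.fst_add]
            push_cast
            linear_combination d31
          · simp only [pt, Prod.snd_add]
            push_cast
            linear_combination d32
        rw [e, hF, hF]
        exact (G_i hT hL hL2 hdeg hF₀ hF₀x k i j (by omega)).1.symm
    · rw [h] at hm
      subst hm
      rcases j with _ | j
      · rcases i with _ | i
        · exact z _
        · have e : pt k (i + 1) 0 + d (k + 4) = pt (k + 5) 1 i := by
            ext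
            · simp only [pt, Prod.fst_add, e5]
              push_cast
              linear_combination d41 - d51
            · simp only [pt, Prod.snd_add, e5]
              push_cast
              linear_combination d42 - d52
          have e6 : ∀ k : ZMod 6, k + 4 = k + 5 + 2 + 3 := by decide
          rw [e, hi1, hF, hF, e6]
          exact (G_i hT hL hL2 hdeg hF₀ hF₀x (k + 5) 0 i (by omega)).2.symm
      · have e : pt k i (j + 1) + d (k + 4) = pt k i j := by
          ext
          · simp only [pt, Prod.fst_add]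
            push_cast
            linear_combination d41
          · simp only [pt, Prod.snd_add]
            push_cast
            linear_combination d42
        rw [e, hF, hF, show k + 4 = k + 1 + 3 by ring]
        exact (G_j hT hL hL2 hdeg hF₀ hF₀x k i j (by omega)).symm
    · rw [h] at hm
      subst hm
      rcases j with _ | j
      · have e : pt k i 0 + d (k + 5) = pt (k + 5) 1 i := by
          ext
          · simp only [pt, Prod.fst_add, e5]
            push_cast
            ring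
          · simp only [pt, Prod.snd_add, e5]
            push_cast
            ring
        rw [e, hi1, hF, hF]
        exact (G_i hT hL hL2 hdeg hF₀ hF₀x (k + 5) 0 i (by omega)).1
      · have e : pt k i (j + 1) + d (k + 5) = pt k (i + 1) j := by
          ext
          · simp only [pt, Prod.fst_add]
            push_cast
            linear_combination d51
          · simp only [pt, Prod.snd_add]
            push_cast
            linear_combination d52
        rw [e, hF, hF, show k + 5 = k + 2 + 3 by ring]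
        exact (G_i hT hL hL2 hdeg hF₀ hF₀x k i j (by omega)).2.symm
  have hq : ∀ p q : ℤ × ℤ, hn (q - p) = 1 → ∃ m, q = p + d m := by
    intro p q h
    obtain ⟨m, hm⟩ := hn_one _ h
    exact ⟨m, by rw [← hm]; abel⟩
  refine ⟨fun p => (F p).1, ?_, ?_, ?_, ?_⟩
  · have e : ((0, 0) : ℤ × ℤ) = pt 0 0 0 := by rw [pt0]; rfl
    change (F (0, 0)).1 = x
    rw [e, hF, G_zero, hF₀x]
  · intro p hp v
    obtain ⟨h1, h2⟩ := hok p hp
    rw [h1.all hL2 h2]
    constructor
    · rintro ⟨m, rfl⟩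
      refine ⟨p + d m, ?_, (hedge p hp m).base⟩
      rw [add_sub_cancel_left]
      exact hn_d m
    · rintro ⟨q, hq1, rfl⟩
      obtain ⟨m, rfl⟩ := hq p q hq1
      exact ⟨m, (hedge p hp m).base.symm⟩
  · intro p hp q q' h1 h2 h3
    obtain ⟨m, rfl⟩ := hq p q h1
    obtain ⟨m', rfl⟩ := hq p q' h2
    change (F _).1 = (F _).1 at h3
    rw [(hedge p hp m).base, (hedge p hp m').base] at h3
    rw [(hok p hp).1.inj h3]
  · intro p hp q q' h1 h2 h3
    obtain ⟨m, rfl⟩ := hq p q h1
    obtain ⟨m', rfl⟩ := hq p q' h2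
    rw [add_sub_add_left_eq_sub] at h3
    change (lk T (F p).1).Adj (F _).1 (F _).1
    rw [(hedge p hp m).base, (hedge p hp m').base]
    rcases hn_dd m m' h3 with h | h
    · rw [h]
      exact (hok p hp).1.adj m
    · rw [h]
      exact ((hok p hp).1.adj m').symm

end Pool.Agent.Helper32.KC
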