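import Pool.Agent.Helper80.KC.Goals

/-!
# Project KC (MP_eaa1a7_co), packet ALL: the common line
-/

set_option autoImplicit false

open Module

namespace Pool.Agent.Helper32.KC

open Pool.Agent.Helper80.KC

section

variable {V : Type} [NormedAddCommGroup V] [InnerProductSpace ℝ V]

lemma eq_span [FiniteDimensional ℝ V] (W : Submodule ℝ V) (hW : finrank ℝ W ≤ 1) (b : V)
    (hb : b ∈ W) (h0 : b ≠ 0) : W = Submodule.span ℝ {b} := by
  symm
  apply Submodule.eq_of_le_of_finrank_le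
  · rw [Submodule.span_singleton_le_iff_mem]
    exact hb
  · rw [finrank_span_singleton h0]
    exact hW

lemma ne_zero_of {b : V} (h : ‖b‖ = 1) : b ≠ 0 := by
  intro h0
  rw [h0, norm_zero] at h
  exact zero_ne_one h

/-- Among the three members two have `p = ±b`. -/
lemma pick [FiniteDimensional ℝ V] (hS : G_STAR) (hM : G_MET) {k : ℕ} {N : Fin k → Submodule ℝ V}
    {p : Fin k → V} {f : Fin k → Fin k → V} (hC : IsConf k V N p f) (hn : ¬ Cf k (E 6))
    (x y : Fin k) (hxy : x ≠ y) (hd : finrank ℝ (N x ⊓ N y : Submodule ℝ V) ≤ 1)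
    (hy : p y ∉ N x) : p x ∈ N y := by
  obtain ⟨l, hl⟩ := hS k V N p f hC hn x y hxy hd
  obtain ⟨u, v, w, huvw, huv, -, -, hu, hv, -⟩ := hM k V N p f hC x y l hxy hl
  have mu : u = x ∨ u = y ∨ u = l := by
    have : u ∈ ({u, v, w} : Set (Fin k)) := by simp
    rw [huvw] at this
    simpa using this
  have mv : v = x ∨ v = y ∨ v = l := by
    have : v ∈ ({u, v, w} : Set (Fin k)) := by simp
    rw [huvw] at this
    simpa using this
  have f1 : f x y ∈ N x := hC.fl x y hxy
  have f2 : f x y ∈ N y := hC.fr x y hxy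
  rcases mu with h | h | h
  · rw [← h, hu]
    exact f2
  · exfalso
    apply hy
    rw [← h, hu]
    exact f1
  · rcases mv with h' | h' | h'
    · rw [← h', hv]
      exact (N y).neg_mem f2
    · exfalso
      apply hy
      rw [← h', hv]
      exact (N x).neg_mem f1
    · exact absurd (h.trans h'.symm) huv

end

/-- **ALL**. -/
theorem goalALL (hS : G_STAR) (hM : G_MET) (hI : G_IND) : G_ALL := by
  intro k V _ _ _ N p f hC hn i j hij hd x
  by_contra hx
  have ha1 : ‖f i j‖ = 1 := hC.fn i j hij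
  have ha0 : f i j ≠ 0 := ne_zero_of ha1
  have hcap : N i ⊓ N j = Submodule.span ℝ {f i j} :=
    eq_span _ hd _ ⟨hC.fl i j hij, hC.fr i j hij⟩ ha0
  obtain ⟨l, hl⟩ := hS k V N p f hC hn i j hij hd
  obtain ⟨u, v, w, huvw, huv, -, -, hu, hv, -⟩ := hM k V N p f hC i j l hij hl
  have ai : f i j ∈ N i := hC.fl i j hij
  have aj : f i j ∈ N j := hC.fr i j hij
  have al : f i j ∈ N l := by
    have : f i j ∈ N l ⊓ (N i ⊔ N j) := by
      rw [hl.cap]
      exact Submodule.mem_span_singleton_self _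
    exact this.1
  have xi : x ≠ i := fun h => hx (h ▸ ai)
  have xj : x ≠ j := fun h => hx (h ▸ aj)
  have xl : x ≠ l := fun h => hx (h ▸ al)
  have nb : ∀ y, x ≠ y → N x ⊓ N y ≠ ⊥ := by
    intro y hy h
    have h1 : f x y ∈ N x ⊓ N y := ⟨hC.fl x y hy, hC.fr x y hy⟩
    rw [h, Submodule.mem_bot] at h1
    exact ne_zero_of (hC.fn x y hy) h1
  obtain ⟨di, dj, dl⟩ := hI V (f i j) (N x) (N i) (N j) (N l) ha0 (hC.dim x) (hC.dim i) (hC.dim j)
    (hC.dim l) hcap hl.cap hx (nb i xi) (nb j xj) (nb l xl)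
  have mem : ∀ y, y = i ∨ y = j ∨ y = l →
      x ≠ y ∧ finrank ℝ (N x ⊓ N y : Submodule ℝ V) ≤ 1 := by
    intro y hy
    rcases hy with rfl | rfl | rfl
    · exact ⟨xi, di⟩
    · exact ⟨xj, dj⟩
    · exact ⟨xl, dl⟩
  have mu : u = i ∨ u = j ∨ u = l := by
    have : u ∈ ({u, v, w} : Set (Fin k)) := by simp
    rw [huvw] at this
    simpa using this
  have mv : v = i ∨ v = j ∨ v = l := by
    have : v ∈ ({u, v, w} : Set (Fin k)) := by simp
    rw [huvw] at this
    simpa using this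
  have pu : p x ∈ N u := by
    refine pick hS hM hC hn x u (mem u mu).1 (mem u mu).2 ?_
    rw [hu]
    exact hx
  have pv : p x ∈ N v := by
    refine pick hS hM hC hn x v (mem v mv).1 (mem v mv).2 ?_
    rw [hv]
    intro h
    exact hx ((N x).neg_mem_iff.mp h)
  have cil : ∀ z, z ∈ N i → z ∈ N l → z ∈ Submodule.span ℝ {f i j} := by
    intro z h1 h2
    rw [← hl.cap]
    exact ⟨h2, Submodule.mem_sup_left h1⟩
  have cjl : ∀ z, z ∈ N j → z ∈ N l → z ∈ Submodule.span ℝ {f i j} := by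
    intro z h1 h2
    rw [← hl.cap]
    exact ⟨h2, Submodule.mem_sup_right h1⟩
  have cij : ∀ z, z ∈ N i → z ∈ N j → z ∈ Submodule.span ℝ {f i j} := by
    intro z h1 h2
    rw [← hcap]
    exact ⟨h1, h2⟩
  have hpx : p x ∈ Submodule.span ℝ {f i j} := by
    rcases mu with h | h | h <;> rcases mv with h' | h' | h'
    · exact absurd (h.trans h'.symm) huv
    · exact cij _ (h ▸ pu) (h' ▸ pv)
    · exact cil _ (h ▸ pu) (h' ▸ pv)
    · exact cij _ (h' ▸ pv) (h ▸ pu)
    · exact absurd (h.trans h'.symm) huv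
    · exact cjl _ (h ▸ pu) (h' ▸ pv)
    · exact cil _ (h' ▸ pv) (h ▸ pu)
    · exact cjl _ (h' ▸ pv) (h ▸ pu)
    · exact absurd (h.trans h'.symm) huv
  rw [Submodule.mem_span_singleton] at hpx
  obtain ⟨c, hc⟩ := hpx
  have hp0 : p x ≠ 0 := ne_zero_of (hC.pn x)
  have hc0 : c ≠ 0 := by
    intro h
    apply hp0
    rw [← hc, h, zero_smul]
  apply hx
  have : f i j = c⁻¹ • p x := by
    rw [← hc, smul_smul, inv_mul_cancel₀ hc0, one_smul]
  rw [this]
  exact (N x).smul_mem _ (hC.pm x)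

end Pool.Agent.Helper32.KC
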